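import Pool.Agent.H53.MK.Sharp

/-!
# MP_76438d_co: combinatorial rank and disjoint factorizations of a bi-infinite word

If a bi-infinite word has `k` pairwise disjoint `X`-factorizations, `X` is a code and one of the
factorizations is non-periodic (or: the word is non-periodic and `X` is any finite set), then the
combinatorial rank of `X` is at least `2` and at most `|X| - k + 1`; all these values occur, for
codes.
-/

set_option autoImplicit false

namespace Pool.Agent.Results.MP_76438d_co.DisjointFactorizations

open Pool.Agent.H53.MK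

/-- The inequality of Karhumäki and Maňuch, and its optimality. -/
theorem result :
    (∀ (α : Type) (X : Finset (List α)) (w : ℤ → α) (k : ℕ) (c : Fin k → ℤ → ℤ),
      (∀ i, IsFactorization X w (c i)) →
      (∀ i j, i ≠ j → Disjoint (Set.range (c i)) (Set.range (c j))) →
      (0 < k ∧ ¬ Periodic w) ∨ (IsCode X ∧ ∃ i, ¬ Periodic (factor w (c i))) →
      2 ≤ comRank X ∧ comRank X + k ≤ X.card + 1) ∧
    (∀ n k r : ℕ, 0 < k → 2 ≤ r → r + k ≤ n + 1 →
      ∃ (X : Finset (List (Fin r))) (w : ℤ → Fin r) (c : Fin k → ℤ → ℤ),
        IsCode X ∧ X.card = n ∧ comRank X = r ∧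
        (∀ i, IsFactorization X w (c i)) ∧
        (∀ i j, i ≠ j → Disjoint (Set.range (c i)) (Set.range (c j))) ∧
        ∀ i, ¬ Periodic (factor w (c i))) :=
  ⟨fun _ X w k c hc hd h => bound X w k c hc hd h, sharp⟩

end Pool.Agent.Results.MP_76438d_co.DisjointFactorizations
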